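import Pool.Agent.helper83.SB.Spec
import Pool.Agent.helper18.SC.UP

/-! Row LFT of the bridge: the functions `lift b φ` are measurable, nonnegative, bounded on the
unit sphere and integrable for finite measures on the sphere. -/

open scoped Pointwise ContDiff
open MeasureTheory Set Filter Topology

namespace Pool.Agent.helper83.SB

open Pool.Agent.helper83.SC

theorem LFT_of : LFT_stmt := by
  intro m b φ hφ
  have hmeas : Measurable (lift b φ) := by
    unfold lift tilde
    apply Measurable.ite
    · exact measurableSet_lt measurable_const (UP_coord2_cont b).measurable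
    · apply Measurable.mul (UP_coord2_cont b).measurable
      exact hφ.1.continuous.measurable.comp (UPπ_meas b)
    · exact measurable_const
  have hnn : ∀ v, 0 ≤ lift b φ v := by
    intro v
    unfold lift tilde
    split_ifs with h
    · exact mul_nonneg h.le (hφ.2.2 _)
    · exact le_rfl
  obtain ⟨C, hC⟩ := hφ.2.1.exists_bound_of_continuous hφ.1.continuous
  have hC0 : 0 ≤ C := (norm_nonneg _).trans (hC 0)
  have hbd : ∀ v, ‖v‖ = 1 → lift b φ v ≤ C := by
    intro v hv
    unfold lift tilde
    split_ifs with h
    · have h1 : (coord b v).2 ≤ 1 := by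
        unfold coord
        simp only
        have := real_inner_le_norm (b (Fin.last m)) v
        rw [hv, b.norm_eq_one] at this
        linarith
      have h2 : φ ((coord b v).2⁻¹ • (coord b v).1) ≤ C :=
        (le_abs_self _).trans (hC _)
      calc (coord b v).2 * φ ((coord b v).2⁻¹ • (coord b v).1)
          ≤ 1 * C := mul_le_mul h1 h2 (hφ.2.2 _) zero_le_one
        _ = C := one_mul C
    · exact hC0
  refine ⟨hmeas, hnn, ⟨C, hbd⟩, ?_⟩
  intro S hS
  have := hS.1
  refine Integrable.of_bound hmeas.aestronglyMeasurable C ?_
  have h2 : ∀ᵐ v ∂S, v ∈ Metric.sphere (0 : E (m + 1)) 1 := by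
    rw [ae_iff]; exact hS.2
  filter_upwards [h2] with v hv
  rw [mem_sphere_zero_iff_norm] at hv
  rw [Real.norm_of_nonneg (hnn v)]
  exact hbd v hv

end Pool.Agent.helper83.SB
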